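import Pool.Agent.H484R2.EPi

set_option autoImplicit false

/-!
Consequences of the algebraicity of `π + e` or `π - e`, beyond those in `Pool.Agent.H484R2.EPi`.
-/

namespace Pool.Agent.H559R15

open Pool.Agent.H484R2.EPi

theorem W_add {x y : ℂ} (hx : x ∈ W) (hy : y ∈ W) : x + y ∈ W := by
  obtain ⟨a, b, c, ha, hb, hc, h⟩ := hx
  obtain ⟨a', b', c', ha', hb', hc', h'⟩ := hy
  exact ⟨a + a', b + b', c + c', ha.add ha', hb.add hb', hc.add hc', by rw [h, h']; ring⟩

theorem W_mul {k x : ℂ} (hk : IsAlgebraic ℚ k) (hx : x ∈ W) : k * x ∈ W := by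
  obtain ⟨a, b, c, ha, hb, hc, h⟩ := hx
  exact ⟨k * a, k * b, k * c, hk.mul ha, hk.mul hb, hk.mul hc, by rw [h]; ring⟩

theorem W_alg {k : ℂ} (hk : IsAlgebraic ℚ k) : k ∈ W :=
  ⟨k, 0, 0, hk, isAlgebraic_zero, isAlgebraic_zero, by ring⟩

theorem W_pi : (Real.pi : ℂ) ∈ W :=
  ⟨0, 0, 1, isAlgebraic_zero, isAlgebraic_zero, isAlgebraic_one, by ring⟩

theorem W_e : Complex.exp 1 ∈ W :=
  ⟨0, 1, 0, isAlgebraic_zero, isAlgebraic_one, isAlgebraic_zero, by ring⟩

theorem alg_rat (q : ℚ) : IsAlgebraic ℚ (q : ℂ) := isAlgebraic_algebraMap q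

theorem alg_zpow {g : ℝ} (hg : IsAlgebraic ℚ g) (q : ℤ) : IsAlgebraic ℚ (g ^ q) := by
  obtain ⟨n, rfl | rfl⟩ := q.eq_nat_or_neg
  · rw [zpow_natCast]; exact hg.pow n
  · rw [zpow_neg, zpow_natCast]; exact (hg.pow n).inv

section
variable {u v : ℂ} (hu : IsAlgebraic ℚ u) (hv : IsAlgebraic ℚ v) (hE : E = u + v * Real.pi)
include hu hv hE

theorem exp_W {z : ℝ} (hz : (z : ℂ) ∈ W) (h0 : z ≠ 0) : Transcendental ℚ (Real.exp z) := by
  by_cases ht : Transcendental ℚ z
  · have := part1 hu hv hE hz ht (n := 0) (fun _ => 0) (fun _ => 0) (fun i => i.elim0)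
      (fun i => i.elim0) (fun i => i.elim0)
    simpa using this
  · have ha : IsAlgebraic ℚ z := not_not.mp ht
    intro h
    apply Pool.Agent.H340R2.LW.transcendental_cexp (z : ℂ) ha.algebraMap (by exact_mod_cast h0)
    have h1 : IsAlgebraic ℚ ((Real.exp z : ℝ) : ℂ) := h.algebraMap
    rwa [Complex.ofReal_exp] at h1

end

/-- The exponent. -/
noncomputable def qf (a b c : ℚ) (t : ℝ) : ℝ :=
  a * Real.pi ^ 2 + b * (Real.pi * Real.exp 1) + c * Real.exp 1 ^ 2 + t

theorem two {r : ℝ} {s : ℚ} (hr : IsAlgebraic ℚ r) (hE : Real.exp 1 = r + s * Real.pi)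
    (a b c a' b' c' : ℚ) (t t' : ℝ) (ht : (t : ℂ) ∈ W) (ht' : (t' : ℂ) ∈ W)
    (hli : LinearIndependent ℚ ![qf a b c t, qf a' b' c' t']) :
    Transcendental ℚ (Real.exp (qf a b c t)) ∨ Transcendental ℚ (Real.exp (qf a' b' c' t')) := by
  have hu : IsAlgebraic ℚ (r : ℂ) := hr.algebraMap
  have hEc : E = (r : ℂ) + ((s : ℚ) : ℂ) * Real.pi := by
    have h1 := congrArg (fun z : ℝ => (z : ℂ)) hE
    simpa using h1
  have hW : ∀ (b c : ℚ) (t : ℝ), (t : ℂ) ∈ W →
      ((((b * r + 2 * c * r * s) * Real.pi + c * r ^ 2 + t : ℝ)) : ℂ) ∈ W := by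
    intro b c t ht
    push_cast
    exact W_add (W_add (W_mul (((alg_rat b).mul hu).add ((((isAlgebraic_algebraMap (2 : ℚ)).mul
      (alg_rat c)).mul hu).mul (alg_rat s))) W_pi) (W_alg ((alg_rat c).mul (hu.pow 2)))) ht
  have hform : ∀ (a b c : ℚ) (t : ℝ), qf a b c t = ((a + b * s + c * s ^ 2 : ℚ) : ℝ) *
      Real.pi ^ 2 + ((b * r + 2 * c * r * s) * Real.pi + c * r ^ 2 + t) := by
    intro a b c t
    unfold qf
    rw [hE]
    push_cast
    ring
  by_contra hcon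
  push Not at hcon
  simp only [Transcendental, not_not] at hcon
  obtain ⟨h1, h2⟩ := hcon
  rw [LinearIndependent.pair_iff] at hli
  obtain ⟨C, hC⟩ : ∃ C : ℚ, C = a + b * s + c * s ^ 2 := ⟨_, rfl⟩
  obtain ⟨C', hC'⟩ : ∃ C' : ℚ, C' = a' + b' * s + c' * s ^ 2 := ⟨_, rfl⟩
  obtain ⟨w, hw⟩ : ∃ w : ℝ, w = (b * r + 2 * c * r * s) * Real.pi + c * r ^ 2 + t := ⟨_, rfl⟩
  obtain ⟨w', hw'⟩ : ∃ w' : ℝ, w' = (b' * r + 2 * c' * r * s) * Real.pi + c' * r ^ 2 + t' :=
    ⟨_, rfl⟩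
  have hwW : (w : ℂ) ∈ W := by rw [hw]; exact hW b c t ht
  have hwW' : (w' : ℂ) ∈ W := by rw [hw']; exact hW b' c' t' ht'
  have e1 : qf a b c t = C * Real.pi ^ 2 + w := by rw [hform, hC, hw]
  have e2 : qf a' b' c' t' = C' * Real.pi ^ 2 + w' := by rw [hform, hC', hw']
  obtain ⟨x, hx⟩ : ∃ x, x = qf a b c t := ⟨_, rfl⟩
  obtain ⟨y, hy⟩ : ∃ y, y = qf a' b' c' t' := ⟨_, rfl⟩
  rw [← hx] at h1 hli e1
  rw [← hy] at h2 hli e2
  by_cases h00 : C = 0 ∧ C' = 0
  · have hx0 : x ≠ 0 := by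
      intro h
      have := hli 1 0 (by rw [h]; simp)
      simp at this
    apply exp_W hu (alg_rat s) hEc (z := x) _ hx0 h1
    rw [e1, h00.1]
    simpa using hwW
  · obtain ⟨m, hm⟩ : ∃ m : ℤ, m = C'.num * C.den := ⟨_, rfl⟩
    obtain ⟨k, hk⟩ : ∃ k : ℤ, k = C.num * C'.den := ⟨_, rfl⟩
    have hmk : (m : ℚ) * C = k * C' := by
      rw [hm, hk]
      push_cast
      have q1 : (C.num : ℚ) = C * C.den := by
        rw [Rat.mul_den_eq_num]
      have q2 : (C'.num : ℚ) = C' * C'.den := by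
        rw [Rat.mul_den_eq_num]
      rw [q1, q2]
      ring
    have hz : (((m * x - k * y : ℝ)) : ℂ) ∈ W := by
      have e3 : (m * x - k * y : ℝ) = m * w - k * w' := by
        rw [e1, e2]
        have e4 : (m : ℝ) * C = k * C' := by exact_mod_cast hmk
        linear_combination (Real.pi ^ 2) * e4
      rw [e3]
      push_cast
      have g1 : IsAlgebraic ℚ ((m : ℤ) : ℂ) := by
        have := alg_rat (m : ℚ)
        simpa using this
      have g2 : IsAlgebraic ℚ (-((k : ℤ) : ℂ)) := by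
        have := (alg_rat (k : ℚ)).neg
        simpa using this
      have g3 : (m : ℂ) * w - (k : ℂ) * w' = (m : ℂ) * w + (-(k : ℂ)) * w' := by ring
      rw [g3]
      exact W_add (W_mul g1 hwW) (W_mul g2 hwW')
    have hz0 : (m * x - k * y : ℝ) ≠ 0 := by
      intro h
      have h3 := hli m (-k) (by
        rw [Rat.smul_def, Rat.smul_def]
        push_cast
        linarith)
      obtain ⟨h4, h5⟩ := h3
      have hm0 : m = 0 := by exact_mod_cast h4
      have hk0 : k = 0 := by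
        have : (k : ℚ) = 0 := by linarith
        exact_mod_cast this
      apply h00
      rw [hm] at hm0
      rw [hk] at hk0
      have d1 : (C.den : ℤ) ≠ 0 := by exact_mod_cast C.den_nz
      have d2 : (C'.den : ℤ) ≠ 0 := by exact_mod_cast C'.den_nz
      constructor
      · rcases mul_eq_zero.1 hk0 with h6 | h6
        · exact Rat.num_eq_zero.1 h6
        · exact absurd h6 d2
      · rcases mul_eq_zero.1 hm0 with h6 | h6
        · exact Rat.num_eq_zero.1 h6
        · exact absurd h6 d1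
    apply exp_W hu (alg_rat s) hEc (z := m * x - k * y) hz hz0
    have hexp : ∀ (m : ℤ) (x : ℝ), Real.exp (m * x) = Real.exp x ^ m := by
      intro m x
      rw [mul_comm, Real.exp_mul, Real.rpow_intCast]
    rw [Real.exp_sub, hexp, hexp, div_eq_mul_inv]
    exact (alg_zpow h1 m).mul (alg_zpow h2 k).inv

theorem kappa {r : ℝ} {s : ℚ} (hr : IsAlgebraic ℚ r) (hr0 : r ≠ 0)
    (hE : Real.exp 1 = r + s * Real.pi) : Transcendental ℚ (Real.pi / Real.exp 1) := by
  intro h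
  have he0 : Real.exp 1 ≠ 0 := (Real.exp_pos 1).ne'
  have h1 : Real.exp 1 * (1 - s * (Real.pi / Real.exp 1)) = r := by
    field_simp
    linarith
  have hs : IsAlgebraic ℚ ((s : ℚ) : ℝ) := isAlgebraic_algebraMap s
  have h2 : IsAlgebraic ℚ (1 - s * (Real.pi / Real.exp 1)) := isAlgebraic_one.sub (hs.mul h)
  have h3 : (1 - s * (Real.pi / Real.exp 1)) ≠ 0 := by
    intro h4
    rw [h4, mul_zero] at h1
    exact hr0 h1.symm
  apply Pool.Agent.H340R2.LW.transcendental_exp_one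
  have h4 : Real.exp 1 = r * (1 - s * (Real.pi / Real.exp 1))⁻¹ := by
    rw [eq_mul_inv_iff_mul_eq₀ h3]
    exact h1
  rw [h4]
  exact hr.mul h2.inv

theorem pairs {r : ℝ} {s : ℚ} (hr : IsAlgebraic ℚ r) (hr0 : r ≠ 0)
    (hE : Real.exp 1 = r + s * Real.pi) :
    (Transcendental ℚ (Real.exp (Real.pi ^ 2)) ∨
      Transcendental ℚ (Real.exp (Real.pi * Real.exp 1))) ∧
    (Transcendental ℚ (Real.exp (Real.pi ^ 2)) ∨
      Transcendental ℚ (Real.exp (Real.exp 1 ^ 2))) ∧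
    (Transcendental ℚ (Real.exp (Real.pi * Real.exp 1)) ∨
      Transcendental ℚ (Real.exp (Real.exp 1 ^ 2))) := by
  have hk := kappa hr hr0 hE
  obtain ⟨e, he⟩ : ∃ e, e = Real.exp 1 := ⟨_, rfl⟩
  have he0 : e ≠ 0 := by rw [he]; exact (Real.exp_pos 1).ne'
  have hp0 : Real.pi ≠ 0 := Real.pi_ne_zero
  have f1 : qf 1 0 0 0 = Real.pi ^ 2 := by unfold qf; push_cast; ring
  have f2 : qf 0 1 0 0 = Real.pi * Real.exp 1 := by unfold qf; push_cast; ring
  have f3 : qf 0 0 1 0 = Real.exp 1 ^ 2 := by unfold qf; push_cast; ring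
  have hW0 : ((0 : ℝ) : ℂ) ∈ W := W_alg (by simpa using isAlgebraic_zero)
  rw [← he] at hk f2 f3
  have g1 : ∀ α β : ℚ, (α : ℝ) * Real.pi + β * e = 0 → α = 0 ∧ β = 0 := by
    intro α β h
    have h1 : α = 0 := by
      by_contra h2
      apply hk
      have h3 : (α : ℝ) ≠ 0 := by exact_mod_cast h2
      have h4 : Real.pi / e = ((-β / α : ℚ) : ℝ) := by
        push_cast
        field_simp
        linarith
      rw [h4]
      exact isAlgebraic_algebraMap _
    refine ⟨h1, ?_⟩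
    rw [h1] at h
    have h5 : (β : ℝ) * e = 0 := by simpa using h
    rcases mul_eq_zero.1 h5 with h6 | h6
    · exact_mod_cast h6
    · exact absurd h6 he0
  have g2 : ∀ α β : ℚ, (α : ℝ) * Real.pi ^ 2 + β * e ^ 2 = 0 → α = 0 ∧ β = 0 := by
    intro α β h
    have h1 : α = 0 := by
      by_contra h2
      apply hk
      have h3 : (α : ℝ) ≠ 0 := by exact_mod_cast h2
      have h4 : (Real.pi / e) ^ 2 = ((-β / α : ℚ) : ℝ) := by
        push_cast
        field_simp
        linarith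
      refine IsAlgebraic.of_pow (n := 2) (by norm_num) ?_
      rw [h4]
      exact isAlgebraic_algebraMap _
    refine ⟨h1, ?_⟩
    rw [h1] at h
    have h5 : (β : ℝ) * e ^ 2 = 0 := by simpa using h
    rcases mul_eq_zero.1 h5 with h6 | h6
    · exact_mod_cast h6
    · exact absurd h6 (pow_ne_zero 2 he0)
  have l1 : LinearIndependent ℚ ![qf 1 0 0 0, qf 0 1 0 0] := by
    rw [LinearIndependent.pair_iff]
    intro α β h
    rw [f1, f2, Rat.smul_def, Rat.smul_def] at h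
    apply g1
    have : Real.pi * ((α : ℝ) * Real.pi + β * e) = 0 := by linarith
    rcases mul_eq_zero.1 this with h6 | h6
    · exact absurd h6 hp0
    · exact h6
  have l2 : LinearIndependent ℚ ![qf 1 0 0 0, qf 0 0 1 0] := by
    rw [LinearIndependent.pair_iff]
    intro α β h
    rw [f1, f3, Rat.smul_def, Rat.smul_def] at h
    exact g2 α β h
  have l3 : LinearIndependent ℚ ![qf 0 1 0 0, qf 0 0 1 0] := by
    rw [LinearIndependent.pair_iff]
    intro α β h
    rw [f2, f3, Rat.smul_def, Rat.smul_def] at h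
    apply g1
    have : e * ((α : ℝ) * Real.pi + β * e) = 0 := by linarith
    rcases mul_eq_zero.1 this with h6 | h6
    · exact absurd h6 he0
    · exact h6
  have k1 := two hr hE 1 0 0 0 1 0 0 0 hW0 hW0 l1
  have k2 := two hr hE 1 0 0 0 0 1 0 0 hW0 hW0 l2
  have k3 := two hr hE 0 1 0 0 0 1 0 0 hW0 hW0 l3
  rw [f1, f2] at k1
  rw [f1, f3] at k2
  rw [f2, f3] at k3
  rw [← he]
  exact ⟨k1, k2, k3⟩

/-- Algebraicity of `π + e` or `π - e` as relation. -/
theorem rel_of_not (h : ¬ (Transcendental ℚ (Real.pi + Real.exp 1) ∧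
    Transcendental ℚ (Real.pi - Real.exp 1))) :
    ∃ (r : ℝ) (s : ℚ), IsAlgebraic ℚ r ∧ r ≠ 0 ∧ (s = 1 ∨ s = -1) ∧
      Real.exp 1 = r + s * Real.pi := by
  have h1 := Real.pi_gt_three
  have h2 := Real.exp_one_lt_d9
  have h3 := Real.exp_pos 1
  rw [not_and_or] at h
  rcases h with h | h
  · refine ⟨Real.pi + Real.exp 1, -1, not_not.mp h, by positivity, Or.inr rfl, ?_⟩
    push_cast
    ring
  · refine ⟨-(Real.pi - Real.exp 1), 1, (not_not.mp h).neg, ?_, Or.inl rfl, ?_⟩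
    · intro h4
      linarith
    · push_cast
      ring

end Pool.Agent.H559R15
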